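import Pool.Agent.helper12.DD.Spec2

/-!
# Project dw: FNE, reduction to finite `E`
-/

set_option autoImplicit false

open Pool.Agent.helper49.Blk

namespace Pool.Agent.DD

section

variable {G : Type} [Group G]

/-- the automorphism `α` fixes the members of `S` and the function `ψ` -/
def FNE_fix (S : Set (Subgroup G)) (N : Subgroup G) (ψ : N → ℂ) (α : MulAut G) : Prop :=
  (∀ P ∈ S, ∀ x y : G, y = α x → (x ∈ P ↔ y ∈ P)) ∧
  ∀ x y : N, (y : G) = α (x : G) → ψ y = ψ x

theorem FNE_fix_one (S : Set (Subgroup G)) (N : Subgroup G) (ψ : N → ℂ) : FNE_fix S N ψ 1 := by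
  refine ⟨fun P _ x y h => ?_, fun x y h => ?_⟩
  · have h' : y = x := h
    rw [h']
  · have h' : y = x := Subtype.ext h
    rw [h']

theorem FNE_fixes {E : Type} [Group E] (ι : G →* E) (hι : Function.Injective ι)
    (S : Set (Subgroup G)) (N : Subgroup G) (ψ : N → ℂ) (e : E) (α : MulAut G)
    (h : ∀ x, ι (α x) = e * ι x * e⁻¹) : Fixes ι S N ψ e ↔ FNE_fix S N ψ α := by
  unfold Fixes FNE_fix
  have h1 : ∀ x y : G, ι y = e * ι x * e⁻¹ ↔ y = α x := by
    intro x y
    rw [← h x]
    exact hι.eq_iff
  simp only [h1]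

/-- the action by conjugation -/
noncomputable def FNE_act {E : Type} [Group E] (ι : G →* E) (hι : Function.Injective ι)
    (hn : ι.range.Normal) : E →* MulAut G :=
  (MulAut.congr (MonoidHom.ofInjective hι).symm).toMonoidHom.comp
    (@MulAut.conjNormal E _ ι.range hn)

theorem FNE_act_spec {E : Type} [Group E] (ι : G →* E) (hι : Function.Injective ι)
    (hn : ι.range.Normal) (e : E) (x : G) : ι (FNE_act ι hι hn e x) = e * ι x * e⁻¹ := by
  have h1 : FNE_act ι hι hn e x = (MonoidHom.ofInjective hι).symm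
      (@MulAut.conjNormal E _ ι.range hn e (MonoidHom.ofInjective hι x)) := rfl
  have h2 : ∀ z : ι.range, ι ((MonoidHom.ofInjective hι).symm z) = z := by
    intro z
    have h3 := (MonoidHom.ofInjective hι).apply_symm_apply z
    exact congrArg Subtype.val h3
  rw [h1, h2]
  rfl

end

theorem FNE : FNE_stmt := by
  intro G E _ _ _ ι hι hn p M χ U hne
  classical
  set π := FNE_act ι hι hn with hπ
  have hπs : ∀ e x, ι (π e x) = e * ι x * e⁻¹ := FNE_act_spec ι hι hn
  have hπι : ∀ g, π (ι g) = MulAut.conj g := by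
    intro g
    ext x
    apply hι
    rw [hπs, MulAut.conj_apply, map_mul, map_mul, map_inv]
  have hfix : ∀ (S : Set (Subgroup G)) (N : Subgroup G) (ψ : N → ℂ) (e : E),
      Fixes ι S N ψ e ↔ FNE_fix S N ψ (π e) := fun S N ψ e =>
    FNE_fixes ι hι S N ψ e (π e) (hπs e)
  -- the kernel is contained in `U`
  have hker : ∀ e, π e = 1 → e ∈ U := by
    obtain ⟨d, hd⟩ := hne
    unfold altQ at hd
    obtain ⟨C, hC, hC2⟩ := exists_ne_zero_of_finsum_mem_ne_zero hd
    have h1 : kC p M ι χ C d U ≠ 0 := by
      intro h0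
      apply hC2
      rw [h0]
      simp
    have h2 : (kset p M ι χ (NC C) {P | P ∈ C} d U).Nonempty := by
      by_contra h3
      rw [Set.not_nonempty_iff_eq_empty] at h3
      apply h1
      unfold kC
      rw [h3, Set.ncard_empty]
    obtain ⟨ψ, -, -, -, hψ⟩ := h2
    intro e he
    rw [hψ e]
    refine ⟨1, ?_⟩
    rw [map_one, mul_one, hfix, he]
    exact FNE_fix_one _ _ _
  have hmem : ∀ e, π e ∈ U.map π ↔ e ∈ U := by
    intro e
    constructor
    · rintro ⟨u, hu, hue⟩
      have h1 : π (u⁻¹ * e) = 1 := by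
        rw [map_mul, map_inv, hue, inv_mul_cancel]
      have h2 := U.mul_mem hu (hker _ h1)
      rwa [mul_inv_cancel_left] at h2
    · intro he
      exact ⟨e, he, rfl⟩
  -- the finite group
  let H : Subgroup (MulAut G) := π.range
  let E' := G ⋊[H.subtype] H
  let ι' : G →* E' := SemidirectProduct.inl
  let U' : Subgroup E' := (U.map π).comap (H.subtype.comp SemidirectProduct.rightHom)
  have hι' : Function.Injective ι' := SemidirectProduct.inl_injective
  have hfin : Finite E' := Finite.of_equiv (G × H) SemidirectProduct.equivProd.symm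
  have hact : ∀ (e : E') (x : G), ι' ((MulAut.conj e.left * (e.right : MulAut G)) x) =
      e * ι' x * e⁻¹ := by
    intro e x
    apply SemidirectProduct.ext
    · show e.left * (e.right : MulAut G) x * e.left⁻¹ = _
      rw [SemidirectProduct.mul_left, SemidirectProduct.mul_left, SemidirectProduct.mul_right,
        SemidirectProduct.inv_left]
      show _ = e.left * (e.right : MulAut G) x *
        ((e.right * 1 : H) : MulAut G) (((e.right⁻¹ : H) : MulAut G) e.left⁻¹)
      rw [mul_one]
      congr 1
      show e.left⁻¹ = (e.right : MulAut G) ((e.right : MulAut G)⁻¹ e.left⁻¹)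
      rw [MulAut.apply_inv_self]
    · show (1 : H) = _
      rw [SemidirectProduct.mul_right, SemidirectProduct.mul_right, SemidirectProduct.inv_right]
      show (1 : H) = e.right * 1 * e.right⁻¹
      rw [mul_one, mul_inv_cancel]
  have hnor : ι'.range.Normal := by
    constructor
    rintro _ ⟨x, rfl⟩ e
    exact ⟨_, hact e x⟩
  have hfix' : ∀ (S : Set (Subgroup G)) (N : Subgroup G) (ψ : N → ℂ) (e : E'),
      Fixes ι' S N ψ e ↔ FNE_fix S N ψ (MulAut.conj e.left * (e.right : MulAut G)) :=
    fun S N ψ e => FNE_fixes ι' hι' S N ψ e _ (hact e)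
  have hstab : ∀ (S : Set (Subgroup G)) (N : Subgroup G) (ψ : N → ℂ),
      StabIs ι' S N ψ U' ↔ StabIs ι S N ψ U := by
    intro S N ψ
    -- both sides in terms of automorphisms
    have h1 : ∀ e : E, (∃ g : G, Fixes ι S N ψ (e * ι g)) ↔
        ∃ g : G, FNE_fix S N ψ (π e * MulAut.conj g) := by
      intro e
      refine exists_congr fun g => ?_
      rw [hfix, map_mul, hπι]
    have h2 : ∀ (e : E'), (∃ g : G, Fixes ι' S N ψ (e * ι' g)) ↔
        ∃ g : G, FNE_fix S N ψ ((e.right : MulAut G) * MulAut.conj g) := by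
      intro e
      have h3 : ∀ g : G, Fixes ι' S N ψ (e * ι' g) ↔ FNE_fix S N ψ
          ((e.right : MulAut G) * MulAut.conj ((e.right : MulAut G)⁻¹ e.left * g)) := by
        intro g
        rw [hfix']
        have h4 : MulAut.conj (e * ι' g).left * ((e * ι' g).right : MulAut G) =
            (e.right : MulAut G) * MulAut.conj ((e.right : MulAut G)⁻¹ e.left * g) := by
          rw [SemidirectProduct.mul_left, SemidirectProduct.mul_right]
          show MulAut.conj (e.left * (e.right : MulAut G) g) * ((e.right * 1 : H) : MulAut G) = _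
          rw [mul_one]
          ext x
          simp only [MulAut.mul_apply, MulAut.conj_apply, map_mul, map_inv, mul_inv_rev,
            MulAut.apply_inv_self]
        rw [h4]
      constructor
      · rintro ⟨g, hg⟩
        exact ⟨_, (h3 g).1 hg⟩
      · rintro ⟨g, hg⟩
        refine ⟨((e.right : MulAut G)⁻¹ e.left)⁻¹ * g, (h3 _).2 ?_⟩
        rwa [mul_inv_cancel_left]
    unfold StabIs
    constructor
    · intro h e
      rw [h1 e]
      have h4 := h (SemidirectProduct.inr ⟨π e, ⟨e, rfl⟩⟩)
      rw [h2] at h4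
      rw [← hmem e]
      exact h4
    · intro h e
      rw [h2 e]
      obtain ⟨e₀, he₀⟩ := e.right.2
      have h4 := h e₀
      rw [h1 e₀, ← hmem e₀, he₀] at h4
      exact h4
  refine ⟨E', inferInstance, hfin, ι', U', hι', hnor, fun d => ?_⟩
  have hk : ∀ C : List (Subgroup G), kC p M ι' χ C d U' = kC p M ι χ C d U := by
    intro C
    unfold kC
    congr 1
    ext ψ
    unfold kset
    simp only [Set.mem_ofPred_eq, hstab]
  unfold altQ
  simp only [hk]

end Pool.Agent.DD
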